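import Pool.Agent.R760.PM4

/-!
# MP_b5f63d_co: kissing configurations of permutations of one bounded integer vector

`IsBlockCode m M n X` (`Pool.Agent.R760.PM2`): `X` is a set of nonzero vectors of `ℤ^n` with entries
in `{-M, …, M}`, any two of which differ by a permutation of the coordinates inside the consecutive
blocks of `m` coordinates and have an angle of at least `π / 3`. `blockMax m M n` is the largest size
of such a set; it is at most the kissing number `kissing n = τ(n)`.

The kissing exponents `c_-` and `c_+` are attained by these sets, with a bounded alphabet and a
bounded block length: `blockMax m M n` is at least `exp (-(5 / √M + (2 M + 1) log (m + 1) / m) n) τ(n)`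
for all large `n`. So Q1 is a question on codes in products of finite sets of bounded size.

Proof. A code of slightly larger angle is almost as large as a kissing configuration (averaging over
caps). In a random position the fourth powers of the coordinates of its points have the sum
`3 / (n + 2)` on average, so that rounding `√n x` to multiples of a small number and replacing the
large coordinates by zero moves at least one eighth of the points little. The numbers of the
coordinates with given values in the blocks take `exp (O(n log m / m))` values.
-/

set_option autoImplicit false

open Filter

namespace Pool.Agent.Results.MP_b5f63d_co.PermutationCodes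

open Pool.Agent.R760.PM Pool.Agent.H818R2

theorem result :
    -- block codes are kissing configurations
    (∀ m M n : ℕ, 0 < n → blockMax m M n ≤ kissing n) ∧
    -- they are almost as large as all kissing configurations
    (∀ m M : ℕ, 0 < m → 21 ≤ M → ∀ᶠ n : ℕ in atTop,
      Real.exp (-((5 / √M + (2 * M + 1) * Real.log (m + 1) / m) * n)) * kissing n ≤
        blockMax m M n) ∧
    -- the exponents `c_-` and `c_+`
    IsLUB (Set.range fun p : ℕ × ℕ =>
        liminf (fun n : ℕ => Real.logb 2 (blockMax p.1 p.2 n) / n) atTop)
      (liminf (fun n : ℕ => Real.logb 2 (kissing n) / n) atTop) ∧
    IsLUB (Set.range fun p : ℕ × ℕ =>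
        limsup (fun n : ℕ => Real.logb 2 (blockMax p.1 p.2 n) / n) atTop)
      (limsup (fun n : ℕ => Real.logb 2 (kissing n) / n) atTop) :=
  ⟨fun m M _ hn => blockMax_le hn m M, fun _ _ hm hM => main hm hM, liminf_lub, limsup_lub⟩

end Pool.Agent.Results.MP_b5f63d_co.PermutationCodes
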